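import Pool.Agent.U81.BX.Pts
import Pool.Agent.K4H55.CX.AbL
import Pool.Agent.W165.CE.Euler

/-!
The Euler product of `E` over all the finite places of an extension.
-/

set_option autoImplicit false

namespace Pool.Agent.U81.BX

open NumberField IsDedekindDomain Filter Topology
open Pool.Agent.H921R2.TatePole (nm nm_summable two_le_nm)
open W165.CE (hasse)
open Pool.Agent.K4H55.BD (low mem_low pv char_ne_two)
open Pool.Agent.K4H55.CX (facF Law CF efx)

variable {K F : Type} [Field K] [NumberField K] [Field F] [NumberField F] [Algebra K F]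

/-- the Euler factor at the place `u` -/
noncomputable def fct (a b n : 𝓞 K) (c : Ideal (𝓞 K) → ℂ) (s : ℂ) (u : HeightOneSpectrum (𝓞 F)) :
    ℂ :=
  open Classical in
  if 2 * (4 * a ^ 3 + 27 * b ^ 2) ∈ (low (K := K) u).asIdeal then
    facF n c (low (K := K) u) (Ideal.absNorm u.asIdeal) s
  else (1 - ((Ideal.absNorm u.asIdeal : ℂ) - pv (algebraMap (𝓞 K) (𝓞 F) a)
      (algebraMap (𝓞 K) (𝓞 F) b) u) * (Ideal.absNorm u.asIdeal : ℂ) ^ (-s) +
    (Ideal.absNorm u.asIdeal : ℂ) ^ (1 - 2 * s))⁻¹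

lemma two_le (v : HeightOneSpectrum (𝓞 K)) : 2 ≤ Ideal.absNorm v.asIdeal := two_le_nm v

theorem fct_eq {a b n : 𝓞 K} {c : Ideal (𝓞 K) → ℂ}
    (hE : ∀ v : HeightOneSpectrum (𝓞 K), 2 * (4 * a ^ 3 + 27 * b ^ 2) ∉ v.asIdeal →
      n ∉ v.asIdeal ∧ c v.asIdeal = (Ideal.absNorm v.asIdeal : ℂ) - pv a b v)
    (u : HeightOneSpectrum (𝓞 F)) {f : ℕ}
    (hf : Ideal.absNorm u.asIdeal = Ideal.absNorm (low (K := K) u).asIdeal ^ f) (s : ℂ) :
    fct a b n c s u = facF n c (low (K := K) u) (Ideal.absNorm u.asIdeal) s := by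
  classical
  unfold fct
  by_cases h : 2 * (4 * a ^ 3 + 27 * b ^ 2) ∈ (low (K := K) u).asIdeal
  · rw [if_pos h]
  · rw [if_neg h]
    obtain ⟨h1, h2⟩ := hE _ h
    have h3 := two_le (low (K := K) u)
    unfold facF
    rw [if_neg h1, pv_low u h hf, h2, hf, Nat.log_pow (by omega)]

lemma bad_finite {m : 𝓞 K} (hm : m ≠ 0) :
    {u : HeightOneSpectrum (𝓞 F) | m ∈ (low (K := K) u).asIdeal}.Finite := by
  have h0 : (Ideal.span {algebraMap (𝓞 K) (𝓞 F) m} : Ideal (𝓞 F)) ≠ 0 := by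
    rw [Ne, Ideal.zero_eq_bot, Ideal.span_singleton_eq_bot]
    intro h
    exact hm ((FaithfulSMul.algebraMap_injective (𝓞 K) (𝓞 F)) (by rw [h, map_zero]))
  refine (Ideal.finite_factors h0).subset fun v hv => ?_
  show v.asIdeal ∣ _
  rw [Ideal.dvd_span_singleton]
  exact hv

/-- the part of the factor different from one -/
lemma fct_bound {a b n : 𝓞 K} {c : Ideal (𝓞 K) → ℂ} (v : HeightOneSpectrum (𝓞 F))
    (hv : 2 * (4 * a ^ 3 + 27 * b ^ 2) ∉ (low (K := K) v).asIdeal) (s : ℂ) (hs : 3 / 2 < s.re)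
    (hsmall : (nm v : ℝ) ^ (-(s.re - 1 / 2)) ≤ 1 / 6) :
    ‖fct a b n c s v - 1‖ ≤ 6 * (nm v : ℝ) ^ (-(s.re - 1 / 2)) := by
  classical
  have hn0 : (0 : ℝ) < nm v := by
    have := two_le_nm v
    exact_mod_cast (by omega : 0 < nm v)
  have hn1 : (1 : ℝ) ≤ nm v := by
    have := two_le_nm v
    exact_mod_cast (by omega : 1 ≤ nm v)
  have h2 : (2 : 𝓞 F) ∉ v.asIdeal := by
    intro h
    apply hv
    refine (low (K := K) v).asIdeal.mul_mem_right _ ?_
    rw [mem_low, map_ofNat]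
    exact h
  have hmax : v.asIdeal.IsMaximal := v.isMaximal
  let : Field (𝓞 F ⧸ v.asIdeal) := Ideal.Quotient.field v.asIdeal
  have hfin : Finite (𝓞 F ⧸ v.asIdeal) := Ideal.finiteQuotientOfFreeOfNeBot _ v.ne_bot
  let : Fintype (𝓞 F ⧸ v.asIdeal) := Fintype.ofFinite _
  have hcard : Ideal.absNorm v.asIdeal = Fintype.card (𝓞 F ⧸ v.asIdeal) := by
    rw [Ideal.absNorm_apply, Submodule.cardQuot_apply, Nat.card_eq_fintype_card]
  have hb := hasse (char_ne_two h2) (Ideal.Quotient.mk v.asIdeal (algebraMap (𝓞 K) (𝓞 F) a))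
    (Ideal.Quotient.mk v.asIdeal (algebraMap (𝓞 K) (𝓞 F) b))
  rw [← hcard] at hb
  set t : ℤ := (Ideal.absNorm v.asIdeal : ℤ) - (pv (algebraMap (𝓞 K) (𝓞 F) a)
      (algebraMap (𝓞 K) (𝓞 F) b) v : ℤ) with ht
  have hb' : |(t : ℝ)| ≤ 2 * Real.sqrt (nm v) := by
    rw [ht]
    push_cast
    exact_mod_cast hb
  have htc : (Ideal.absNorm v.asIdeal : ℂ) - pv (algebraMap (𝓞 K) (𝓞 F) a)
      (algebraMap (𝓞 K) (𝓞 F) b) v = (t : ℂ) := by
    rw [ht]
    push_cast
    rfl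
  unfold fct
  rw [if_neg hv, htc]
  set w : ℝ := (nm v : ℝ) ^ (-(s.re - 1 / 2)) with hw
  have e1 : ‖((Ideal.absNorm v.asIdeal : ℕ) : ℂ) ^ (-s)‖ = (nm v : ℝ) ^ (-s.re) := by
    have := Complex.norm_natCast_cpow_of_pos (n := nm v) (by exact_mod_cast hn0) (-s)
    rw [Complex.neg_re] at this
    exact this
  have e2 : ‖((Ideal.absNorm v.asIdeal : ℕ) : ℂ) ^ (1 - 2 * s)‖ = (nm v : ℝ) ^ (1 - 2 * s.re) := by
    have := Complex.norm_natCast_cpow_of_pos (n := nm v) (by exact_mod_cast hn0) (1 - 2 * s)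
    have h2 : (1 - 2 * s).re = 1 - 2 * s.re := by simp
    rw [h2] at this
    exact this
  set u : ℂ := -((t : ℂ) * ((Ideal.absNorm v.asIdeal : ℕ) : ℂ) ^ (-s)) +
    ((Ideal.absNorm v.asIdeal : ℕ) : ℂ) ^ (1 - 2 * s) with hu
  have hu1 : ‖u‖ ≤ 3 * w := by
    have h1 : ‖(t : ℂ) * ((Ideal.absNorm v.asIdeal : ℕ) : ℂ) ^ (-s)‖ ≤ 2 * w := by
      rw [norm_mul, e1, Complex.norm_intCast]
      calc |(t : ℝ)| * (nm v : ℝ) ^ (-s.re) ≤ (2 * Real.sqrt (nm v)) * (nm v : ℝ) ^ (-s.re) :=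
            mul_le_mul_of_nonneg_right hb' (by positivity)
        _ = 2 * w := by
            rw [hw, Real.sqrt_eq_rpow, mul_assoc, ← Real.rpow_add hn0]
            congr 2
            ring
    have h2 : ‖((Ideal.absNorm v.asIdeal : ℕ) : ℂ) ^ (1 - 2 * s)‖ ≤ w := by
      rw [e2, hw]
      apply Real.rpow_le_rpow_of_exponent_le hn1
      linarith
    calc ‖u‖ ≤ ‖-((t : ℂ) * ((Ideal.absNorm v.asIdeal : ℕ) : ℂ) ^ (-s))‖ + _ := norm_add_le _ _
      _ ≤ 2 * w + w := add_le_add (by rwa [norm_neg]) h2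
      _ = 3 * w := by ring
  have e3 : (1 - (t : ℂ) * ((Ideal.absNorm v.asIdeal : ℕ) : ℂ) ^ (-s) +
    ((Ideal.absNorm v.asIdeal : ℕ) : ℂ) ^ (1 - 2 * s)) = 1 + u := by rw [hu]; ring
  rw [e3]
  have hu2 : ‖u‖ ≤ 1 / 2 := by linarith
  have h3 : 1 / 2 ≤ ‖1 + u‖ := by
    have := norm_sub_norm_le (1 : ℂ) (-u)
    rw [sub_neg_eq_add, norm_neg, norm_one] at this
    linarith
  have hne : 1 + u ≠ 0 := by
    intro h
    rw [h, norm_zero] at h3
    linarith
  have e4 : (1 + u)⁻¹ - 1 = -u / (1 + u) := by field_simp; ring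
  rw [e4, norm_div, norm_neg, div_le_iff₀ (by linarith)]
  nlinarith [norm_nonneg u]

lemma mult_fct {a b n : 𝓞 K} {c : Ideal (𝓞 K) → ℂ} (hΔ : 4 * a ^ 3 + 27 * b ^ 2 ≠ 0) (s : ℂ)
    (hs : 3 / 2 < s.re) : Multipliable (fct (F := F) a b n c s) := by
  have hsum := nm_summable (K := F) (x := s.re - 1 / 2) (by linarith)
  have h1 : Summable (fun v : HeightOneSpectrum (𝓞 F) => ‖fct a b n c s v - 1‖) := by
    refine Summable.of_norm_bounded_eventually (hsum.mul_left 6) ?_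
    have h2 := hsum.tendsto_cofinite_zero.eventually (Iio_mem_nhds (by norm_num : (0 : ℝ) < 1 / 6))
    have h3 : ∀ᶠ v : HeightOneSpectrum (𝓞 F) in cofinite,
        2 * (4 * a ^ 3 + 27 * b ^ 2) ∉ (low (K := K) v).asIdeal := by
      rw [Filter.eventually_cofinite]
      simp only [not_not]
      exact bad_finite (mul_ne_zero two_ne_zero hΔ)
    filter_upwards [h2, h3] with v hv hv3
    rw [norm_norm]
    exact fct_bound v hv3 s hs (le_of_lt hv)
  have h2 := multipliable_one_add_of_summable h1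
  refine h2.congr (fun v => ?_)
  ring

/-- the product over all the places of the extension -/
theorem hasProd_fct {a b n : 𝓞 K} {c : Ideal (𝓞 K) → ℂ} (hΔ : 4 * a ^ 3 + 27 * b ^ 2 ≠ 0)
    (hE : ∀ v : HeightOneSpectrum (𝓞 K), 2 * (4 * a ^ 3 + 27 * b ^ 2) ∉ v.asIdeal →
      n ∉ v.asIdeal ∧ c v.asIdeal = (Ideal.absNorm v.asIdeal : ℂ) - pv a b v)
    (hN : ∀ u : HeightOneSpectrum (𝓞 F), ∃ f : ℕ,
      Ideal.absNorm u.asIdeal = Ideal.absNorm (low (K := K) u).asIdeal ^ f)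
    (hfin : ∀ v : HeightOneSpectrum (𝓞 K), Finite {u : HeightOneSpectrum (𝓞 F) //
      u.asIdeal.comap (algebraMap (𝓞 K) (𝓞 F)) = v.asIdeal})
    {s g : ℂ} (hs : 3 / 2 < s.re)
    (h : HasProd (fun v : HeightOneSpectrum (𝓞 K) =>
        ∏ᶠ u : {u : HeightOneSpectrum (𝓞 F) //
          u.asIdeal.comap (algebraMap (𝓞 K) (𝓞 F)) = v.asIdeal},
            facF n c v (Ideal.absNorm u.1.asIdeal) s) g) :
    HasProd (fct (F := F) a b n c s) g := by
  classical
  have h3 : Multipliable (fct (F := F) a b n c s) := mult_fct hΔ s hs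
  have hlow : ∀ (u : HeightOneSpectrum (𝓞 F)) (v : HeightOneSpectrum (𝓞 K)),
      low (K := K) u = v ↔ u.asIdeal.comap (algebraMap (𝓞 K) (𝓞 F)) = v.asIdeal := by
    intro u v
    constructor
    · rintro rfl
      rfl
    · intro h
      exact HeightOneSpectrum.ext h
  rw [← (Equiv.sigmaFiberEquiv (low (K := K) (L := F))).hasProd_iff]
  refine HasProd.sigma_of_hasProd h (fun v => ?_) ?_
  · have hf1 := hfin v
    let e : {u : HeightOneSpectrum (𝓞 F) // low (K := K) u = v} ≃ {u : HeightOneSpectrum (𝓞 F) //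
      u.asIdeal.comap (algebraMap (𝓞 K) (𝓞 F)) = v.asIdeal} :=
      Equiv.subtypeEquivRight fun u => hlow u v
    have hf2 : Finite {u : HeightOneSpectrum (𝓞 F) // low (K := K) u = v} := Finite.of_equiv _ e.symm
    have i1 := Fintype.ofFinite {u : HeightOneSpectrum (𝓞 F) // low (K := K) u = v}
    have h4 : (∏ᶠ u : {u : HeightOneSpectrum (𝓞 F) //
          u.asIdeal.comap (algebraMap (𝓞 K) (𝓞 F)) = v.asIdeal},
            facF n c v (Ideal.absNorm u.1.asIdeal) s) =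
        ∏ u : {u : HeightOneSpectrum (𝓞 F) // low (K := K) u = v}, fct a b n c s u.1 := by
      rw [← finprod_comp_equiv e, finprod_eq_prod_of_fintype]
      refine Finset.prod_congr rfl fun u _ => ?_
      obtain ⟨u, rfl⟩ := u
      obtain ⟨f, hf⟩ := hN u
      exact (fct_eq hE u hf s).symm
    rw [h4]
    exact hasProd_fintype _
  · exact (Equiv.sigmaFiberEquiv (low (K := K) (L := F))).multipliable_iff.2 h3

/-- the Euler factor over `K` -/
lemma fct_self {a b n : 𝓞 K} {c : Ideal (𝓞 K) → ℂ}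
    (hE : ∀ v : HeightOneSpectrum (𝓞 K), 2 * (4 * a ^ 3 + 27 * b ^ 2) ∉ v.asIdeal →
      n ∉ v.asIdeal ∧ c v.asIdeal = (Ideal.absNorm v.asIdeal : ℂ) - pv a b v) (s : ℂ)
    [IsPrincipalIdealRing (𝓞 K)] (v : HeightOneSpectrum (𝓞 K)) :
    fct a b n c s v = efx n c (fun _ => 1) s v := by
  classical
  have h0 : low (K := K) v = v := by
    apply HeightOneSpectrum.ext
    show v.asIdeal.comap (algebraMap (𝓞 K) (𝓞 K)) = v.asIdeal
    rw [Algebra.algebraMap_self, Ideal.comap_id]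
  have h1 := fct_eq (F := K) hE v (f := 1) (by rw [h0, pow_one]) s
  rw [h1, h0]
  have h2 := two_le v
  unfold facF efx
  have h3 : Nat.log (Ideal.absNorm v.asIdeal) (Ideal.absNorm v.asIdeal) = 1 := by
    have h4 := Nat.log_pow (b := Ideal.absNorm v.asIdeal) (by omega) 1
    rwa [pow_one] at h4
  rw [h3]
  by_cases h4 : n ∈ v.asIdeal
  · rw [if_pos h4, if_pos h4]
    simp
  · rw [if_neg h4, if_neg h4]
    simp [Pool.Agent.K4H55.CX.luc]

end Pool.Agent.U81.BX
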