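import Pool.Agent.W165.CE.FF
import Pool.Agent.K4H55.BD.EC
import Pool.Agent.K4H55.CX.Ab

/-!
The number of the points over the residue fields of an extension of number fields.
-/

set_option autoImplicit false

namespace Pool.Agent.U81.BX

open NumberField IsDedekindDomain Polynomial Finset
open Pool.Agent.H341R2.Sharp
open Pool.Agent.H82R3.EK (luc card_points)
open W165.CE (wei aeval_wei wei_natDegree wei_monic T_luc A_two)
open Pool.Agent.K4H55.BD (low mem_low pv char_ne_two)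

/-- number of points over an extension of a finite field -/
theorem pts_ext {F : Type} [Field F] [Fintype F] [DecidableEq F] (hF : ringChar F ≠ 2) (a b : F)
    (hd : 4 * a ^ 3 + 27 * b ^ 2 ≠ 0) {k : Type} [Field k] [Fintype k] [Algebra F k] :
    (Fintype.card k : ℤ) - Nat.card {x : k × k // x.2 ^ 2 = x.1 ^ 3 + algebraMap F k a * x.1 +
      algebraMap F k b} =
      luc ((Fintype.card F : ℤ) - Nat.card {x : F × F // x.2 ^ 2 = x.1 ^ 3 + a * x.1 + b})
        (Fintype.card F) (Module.finrank F k) := by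
  classical
  have key : ∀ {E : Type} [Field E] [Fintype E] [Algebra F E] [DecidableEq E],
      (Fintype.card E : ℤ) - Nat.card {x : E × E // x.2 ^ 2 = x.1 ^ 3 + algebraMap F E a * x.1 +
        algebraMap F E b} = - T (wei a b) (Module.finrank F E) := by
    intro E _ _ _ _
    have hE : ringChar E ≠ 2 := by
      rwa [← Algebra.ringChar_eq F E]
    rw [card_points hE (fun x => x ^ 3 + algebraMap F E a * x + algebraMap F E b),
      T_eq_sum (E := E) hF]
    have : ∀ x : E, aeval x (wei a b) = x ^ 3 + algebraMap F E a * x + algebraMap F E b := by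
      intro x
      rw [aeval_wei]
    simp_rw [this]
    ring
  have h1 := key (E := F)
  rw [Module.finrank_self] at h1
  simp only [Algebra.algebraMap_self, RingHom.id_apply] at h1
  rw [key (E := k), h1]
  have hpos : 0 < Module.finrank F k := Module.finrank_pos
  obtain ⟨n, hn⟩ := Nat.exists_eq_succ_of_ne_zero hpos.ne'
  rw [hn, Nat.succ_eq_add_one, T_luc hF (wei_natDegree _ _) (wei_monic _ _) n,
    A_two hF _ _ hd]
  ring

/-- the power sums -/
lemma luc_cast (t q : ℤ) : ∀ n : ℕ,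
    Pool.Agent.K4H55.CX.luc (t : ℂ) (q : ℂ) n = ((luc t q n : ℤ) : ℂ)
  | 0 => by simp [Pool.Agent.K4H55.CX.luc, luc]
  | 1 => by simp [Pool.Agent.K4H55.CX.luc, luc]
  | n + 2 => by
    rw [Pool.Agent.K4H55.CX.luc, luc, luc_cast t q (n + 1), luc_cast t q n]
    push_cast
    ring

section field

variable {K F : Type} [Field K] [NumberField K] [Field F] [NumberField F] [Algebra K F]

/-- the points over the residue field of a place of the extension -/
theorem pv_low (u : HeightOneSpectrum (𝓞 F)) {a b : 𝓞 K}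
    (hu : 2 * (4 * a ^ 3 + 27 * b ^ 2) ∉ (low (K := K) u).asIdeal) {f : ℕ}
    (hf : Ideal.absNorm u.asIdeal = Ideal.absNorm (low (K := K) u).asIdeal ^ f) :
    (Ideal.absNorm u.asIdeal : ℂ) - pv (algebraMap (𝓞 K) (𝓞 F) a) (algebraMap (𝓞 K) (𝓞 F) b) u =
      Pool.Agent.K4H55.CX.luc ((Ideal.absNorm (low (K := K) u).asIdeal : ℂ) - pv a b (low u))
        (Ideal.absNorm (low (K := K) u).asIdeal) f := by
  classical
  set v := low (K := K) u with hv
  have hlo : u.asIdeal.LiesOver v.asIdeal := ⟨rfl⟩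
  have hmv : v.asIdeal.IsMaximal := v.isPrime.isMaximal v.ne_bot
  have hmu : u.asIdeal.IsMaximal := u.isPrime.isMaximal u.ne_bot
  let : Field (𝓞 K ⧸ v.asIdeal) := Ideal.Quotient.field v.asIdeal
  let : Field (𝓞 F ⧸ u.asIdeal) := Ideal.Quotient.field u.asIdeal
  have : Finite (𝓞 K ⧸ v.asIdeal) := Ideal.finiteQuotientOfFreeOfNeBot v.asIdeal v.ne_bot
  have : Finite (𝓞 F ⧸ u.asIdeal) := Ideal.finiteQuotientOfFreeOfNeBot u.asIdeal u.ne_bot
  let : Fintype (𝓞 K ⧸ v.asIdeal) := Fintype.ofFinite _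
  let : Fintype (𝓞 F ⧸ u.asIdeal) := Fintype.ofFinite _
  have h2 : (2 : 𝓞 K) ∉ v.asIdeal := fun h => hu (v.asIdeal.mul_mem_right _ h)
  have hchar := char_ne_two h2
  have hd : 4 * (Ideal.Quotient.mk v.asIdeal a) ^ 3 + 27 * (Ideal.Quotient.mk v.asIdeal b) ^ 2 ≠ 0 := by
    intro h0
    apply hu
    apply v.asIdeal.mul_mem_left
    rw [← Ideal.Quotient.eq_zero_iff_mem]
    simpa only [map_add, map_mul, map_pow, map_ofNat] using h0
  have hcv : Ideal.absNorm v.asIdeal = Fintype.card (𝓞 K ⧸ v.asIdeal) := by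
    rw [Ideal.absNorm_apply, Submodule.cardQuot_apply, Nat.card_eq_fintype_card]
  have hcu : Ideal.absNorm u.asIdeal = Fintype.card (𝓞 F ⧸ u.asIdeal) := by
    rw [Ideal.absNorm_apply, Submodule.cardQuot_apply, Nat.card_eq_fintype_card]
  have key := pts_ext hchar (Ideal.Quotient.mk v.asIdeal a) (Ideal.Quotient.mk v.asIdeal b) hd
    (k := 𝓞 F ⧸ u.asIdeal)
  have hfin : Module.finrank (𝓞 K ⧸ v.asIdeal) (𝓞 F ⧸ u.asIdeal) = f := by
    have h4 := Module.card_eq_pow_finrank (K := 𝓞 K ⧸ v.asIdeal) (V := 𝓞 F ⧸ u.asIdeal)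
    rw [← hcu, ← hcv, hf] at h4
    have h5 : 2 ≤ Ideal.absNorm v.asIdeal := by
      have h6 : Ideal.absNorm v.asIdeal ≠ 0 := by
        rw [Ne, Ideal.absNorm_eq_zero_iff]
        exact v.ne_bot
      have h7 : Ideal.absNorm v.asIdeal ≠ 1 := by
        rw [Ne, Ideal.absNorm_eq_one_iff]
        exact v.isPrime.ne_top
      omega
    exact (Nat.pow_right_injective h5 h4).symm
  rw [hfin, ← hcu, ← hcv] at key
  have e1 : ∀ x : 𝓞 K, algebraMap (𝓞 K ⧸ v.asIdeal) (𝓞 F ⧸ u.asIdeal)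
      (Ideal.Quotient.mk v.asIdeal x) = Ideal.Quotient.mk u.asIdeal (algebraMap (𝓞 K) (𝓞 F) x) :=
    fun x => rfl
  rw [e1, e1] at key
  have e2 : ((Ideal.absNorm u.asIdeal : ℤ) - (pv (algebraMap (𝓞 K) (𝓞 F) a)
      (algebraMap (𝓞 K) (𝓞 F) b) u : ℤ)) =
      luc ((Ideal.absNorm v.asIdeal : ℤ) - (pv a b v : ℤ)) (Ideal.absNorm v.asIdeal) f := key
  have e3 := congrArg (fun z : ℤ => (z : ℂ)) e2
  rw [← luc_cast] at e3
  push_cast at e3
  exact e3

end field

end Pool.Agent.U81.BX
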